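import Pool.Agent.Helper98.DISC.GoalsA

/-! # Project DISC (MP_105b7b_pr): packet DES, the Desnanot-Jacobi identity -/

namespace Pool.Agent.Helper31.DISC

open Matrix Pool.Agent.Helper98.DISC

theorem block {R : Type*} [CommRing R] (n : ℕ)
    (M : Matrix (Fin n ⊕ Fin 2) (Fin n ⊕ Fin 2) R) :
    M.det * (M.adjugate.toBlocks₂₂).det = M.toBlocks₁₁.det * M.det ^ 2 := by
  have h : M * M.adjugate = M.det • (1 : Matrix (Fin n ⊕ Fin 2) (Fin n ⊕ Fin 2) R) :=
    Matrix.mul_adjugate M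
  rw [← Matrix.fromBlocks_toBlocks (M * M.adjugate)] at h
  have h0 : M * M.adjugate = fromBlocks M.toBlocks₁₁ M.toBlocks₁₂ M.toBlocks₂₁ M.toBlocks₂₂ *
      fromBlocks M.adjugate.toBlocks₁₁ M.adjugate.toBlocks₁₂ M.adjugate.toBlocks₂₁
        M.adjugate.toBlocks₂₂ := by
    rw [Matrix.fromBlocks_toBlocks, Matrix.fromBlocks_toBlocks]
  rw [h0, Matrix.fromBlocks_multiply, Matrix.fromBlocks_toBlocks,
    ← Matrix.fromBlocks_one, Matrix.fromBlocks_smul, Matrix.fromBlocks_inj] at h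
  obtain ⟨-, h12, -, h22⟩ := h
  have h1 : fromBlocks M.toBlocks₁₁ M.toBlocks₁₂ M.toBlocks₂₁ M.toBlocks₂₂ *
      fromBlocks 1 M.adjugate.toBlocks₁₂ 0 M.adjugate.toBlocks₂₂ =
      fromBlocks M.toBlocks₁₁ 0 M.toBlocks₂₁ (M.det • (1 : Matrix (Fin 2) (Fin 2) R)) := by
    rw [Matrix.fromBlocks_multiply, h12, h22]
    simp
  have h2 := congrArg Matrix.det h1
  rw [Matrix.det_mul, Matrix.fromBlocks_toBlocks, Matrix.det_fromBlocks_zero₂₁,
    Matrix.det_fromBlocks_zero₁₂, Matrix.det_one, one_mul, Matrix.det_smul, Matrix.det_one,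
    mul_one, Fintype.card_fin] at h2
  exact h2

theorem des_mul {R : Type*} [CommRing R] (n : ℕ) (M : Matrix (Fin (n + 2)) (Fin (n + 2)) R) :
    M.det * (M.det * (M.submatrix (fun i : Fin n => i.castSucc.castSucc)
      (fun i : Fin n => i.castSucc.castSucc)).det) =
    M.det * ((M.submatrix (Fin.succAbove (Fin.last (n + 1)))
        (Fin.succAbove (Fin.last (n + 1)))).det *
      (M.submatrix (Fin.succAbove (Fin.last n).castSucc)
        (Fin.succAbove (Fin.last n).castSucc)).det -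
    (M.submatrix (Fin.succAbove (Fin.last n).castSucc) (Fin.succAbove (Fin.last (n + 1)))).det *
      (M.submatrix (Fin.succAbove (Fin.last (n + 1)))
        (Fin.succAbove (Fin.last n).castSucc)).det) := by
  have h := block n (M.submatrix (finSumFinEquiv (m := n) (n := 2)) finSumFinEquiv)
  rw [Matrix.det_submatrix_equiv_self, Matrix.adjugate_submatrix_equiv_self] at h
  have e1 : (M.submatrix (finSumFinEquiv (m := n) (n := 2)) finSumFinEquiv).toBlocks₁₁ =
      M.submatrix (fun i : Fin n => i.castSucc.castSucc) (fun i : Fin n => i.castSucc.castSucc) :=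
    rfl
  have e0 : finSumFinEquiv (Sum.inr 0 : Fin n ⊕ Fin 2) = (Fin.last n).castSucc := by
    ext; simp
  have e2 : finSumFinEquiv (Sum.inr 1 : Fin n ⊕ Fin 2) = Fin.last (n + 1) := by
    ext; simp
  rw [e1, Matrix.det_fin_two] at h
  simp only [Matrix.toBlocks₂₂, Matrix.of_apply, Matrix.submatrix_apply, e0, e2] at h
  rw [Matrix.adjugate_fin_succ_eq_det_submatrix, Matrix.adjugate_fin_succ_eq_det_submatrix,
    Matrix.adjugate_fin_succ_eq_det_submatrix, Matrix.adjugate_fin_succ_eq_det_submatrix] at h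
  have s1 : (-1 : R) ^ ((((Fin.last n).castSucc : Fin (n + 2)) : ℕ) +
      (((Fin.last n).castSucc : Fin (n + 2)) : ℕ)) = 1 := by
    rw [← two_mul, pow_mul]; simp
  have s2 : (-1 : R) ^ (((Fin.last (n + 1) : Fin (n + 2)) : ℕ) +
      ((Fin.last (n + 1) : Fin (n + 2)) : ℕ)) = 1 := by
    rw [← two_mul, pow_mul]; simp
  have s3 : (-1 : R) ^ (((Fin.last (n + 1) : Fin (n + 2)) : ℕ) +
      (((Fin.last n).castSucc : Fin (n + 2)) : ℕ)) = -1 := by
    have : ((Fin.last (n + 1) : Fin (n + 2)) : ℕ) + (((Fin.last n).castSucc : Fin (n + 2)) : ℕ) =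
      2 * n + 1 := by simp; ring
    rw [this, pow_succ, pow_mul]; simp
  have s4 : (-1 : R) ^ ((((Fin.last n).castSucc : Fin (n + 2)) : ℕ) +
      ((Fin.last (n + 1) : Fin (n + 2)) : ℕ)) = -1 := by
    rw [add_comm]; exact s3
  rw [s1, s2, s3, s4] at h
  have h' := h
  rw [show ∀ a b : R, a * b ^ 2 = b * (b * a) from fun a b => by ring] at h'
  rw [← h']
  ring

theorem des : S_DES := by
  intro R _ n M
  have key := mul_left_cancel₀ (Matrix.det_mvPolynomialX_ne_zero (Fin (n + 2)) ℤ)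
    (des_mul n (Matrix.mvPolynomialX (Fin (n + 2)) (Fin (n + 2)) ℤ))
  have h := congrArg (MvPolynomial.aeval (R := ℤ) fun p : Fin (n + 2) × Fin (n + 2) => M p.1 p.2)
    key
  have hM : ∀ i j, MvPolynomial.aeval (R := ℤ) (fun p : Fin (n + 2) × Fin (n + 2) => M p.1 p.2)
      (Matrix.mvPolynomialX (Fin (n + 2)) (Fin (n + 2)) ℤ i j) = M i j := by
    intro i j
    rw [Matrix.mvPolynomialX_apply, MvPolynomial.aeval_X]
  have hsub : ∀ (k : ℕ) (f g : Fin k → Fin (n + 2)),
      MvPolynomial.aeval (R := ℤ) (fun p : Fin (n + 2) × Fin (n + 2) => M p.1 p.2)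
        ((Matrix.mvPolynomialX (Fin (n + 2)) (Fin (n + 2)) ℤ).submatrix f g).det =
      (M.submatrix f g).det := by
    intro k f g
    rw [AlgHom.map_det]
    congr 1
    ext i j
    exact hM _ _
  have hdet : MvPolynomial.aeval (R := ℤ) (fun p : Fin (n + 2) × Fin (n + 2) => M p.1 p.2)
        (Matrix.mvPolynomialX (Fin (n + 2)) (Fin (n + 2)) ℤ).det = M.det := by
    rw [AlgHom.map_det]
    congr 1
    ext i j
    exact hM _ _
  rw [map_mul, map_sub, map_mul, map_mul, hdet] at h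
  rw [hsub, hsub, hsub, hsub, hsub] at h
  exact h

end Pool.Agent.Helper31.DISC
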