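import Pool.Agent.Helper98.DISC.GoalsD

/-! # Project DISC (MP_105b7b_pr): packet SIM, similarities -/

open MeasureTheory Set Filter Topology
open scoped ENNReal

noncomputable section

namespace Pool.Agent.Helper31.DISC

open Pool.Agent.Helper98.DISC

theorem cr_lin (c d x y z : ℂ) :
    cr (c * x + d) (c * y + d) (c * z + d) = ‖c‖ ^ 2 * cr x y z := by
  rw [← Complex.normSq_eq_norm_sq, Complex.normSq_apply]
  simp only [cr, Complex.add_re, Complex.add_im, Complex.mul_re, Complex.mul_im]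
  ring

theorem dq_lin (c b : ℂ) (φ : ℝ) (z : ℂ) :
    dq (c * 1 + b) (c * 0 + b) φ (c * z + b) = ‖c‖ ^ 2 * dq 1 0 φ z := by
  have h1 : (c * z + b - (c * 0 + b)) * (starRingEnd ℂ) (c * 1 + b - (c * z + b)) *
      Complex.exp (-(φ * Complex.I)) = ((‖c‖ ^ 2 : ℝ) : ℂ) *
      ((z - 0) * (starRingEnd ℂ) (1 - z) * Complex.exp (-(φ * Complex.I))) := by
    have h2 : c * 1 + b - (c * z + b) = c * (1 - z) := by ring
    rw [h2, map_mul]
    have h3 : ((‖c‖ ^ 2 : ℝ) : ℂ) = c * (starRingEnd ℂ) c := by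
      rw [Complex.mul_conj, Complex.normSq_eq_norm_sq]
    rw [h3]
    ring
  rw [dq, h1, Complex.im_ofReal_mul]
  rfl

theorem cr_pos (c d x y z : ℂ) (hc : c ≠ 0) :
    0 < cr (c * x + d) (c * y + d) (c * z + d) ↔ 0 < cr x y z := by
  rw [cr_lin]
  have h : (0 : ℝ) < ‖c‖ ^ 2 := by positivity
  exact mul_pos_iff_of_pos_left h

theorem dq_neg (c b : ℂ) (φ : ℝ) (z : ℂ) (hc : c ≠ 0) :
    dq (c * 1 + b) (c * 0 + b) φ (c * z + b) < 0 ↔ dq 1 0 φ z < 0 := by
  rw [dq_lin]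
  have h : (0 : ℝ) < ‖c‖ ^ 2 := by positivity
  constructor
  · intro h1
    by_contra h2
    push Not at h2
    have := mul_nonneg h.le h2
    linarith
  · intro h1
    exact mul_neg_of_pos_of_neg h h1

theorem ES_image (ι : Type) [LinearOrder ι] (c b : ℂ) (φ : ℝ) (hc : c ≠ 0) :
    ES ι (c * 1 + b) (c * 0 + b) φ = (fun z : ι → ℂ => fun i => c * z i + b) '' ES ι 1 0 φ := by
  have key : ∀ z : ι → ℂ, (fun i => c * z i + b) ∈ ES ι (c * 1 + b) (c * 0 + b) φ ↔
      z ∈ ES ι 1 0 φ := by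
    intro z
    constructor
    · rintro ⟨h1, h2⟩
      refine ⟨⟨fun i => ?_, fun i j hij => ?_, fun i j hij => ?_, fun i j k hij hjk => ?_⟩,
        fun i => (dq_neg c b φ (z i) hc).1 (h2 i)⟩
      · exact (cr_pos c b _ _ _ hc).1 (h1.ab i)
      · exact (cr_pos c b _ _ _ hc).1 (h1.a2 i j hij)
      · exact (cr_pos c b _ _ _ hc).1 (h1.b2 i j hij)
      · exact (cr_pos c b _ _ _ hc).1 (h1.p3 i j k hij hjk)
    · rintro ⟨h1, h2⟩
      refine ⟨⟨fun i => ?_, fun i j hij => ?_, fun i j hij => ?_, fun i j k hij hjk => ?_⟩,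
        fun i => (dq_neg c b φ (z i) hc).2 (h2 i)⟩
      · exact (cr_pos c b _ _ _ hc).2 (h1.ab i)
      · exact (cr_pos c b _ _ _ hc).2 (h1.a2 i j hij)
      · exact (cr_pos c b _ _ _ hc).2 (h1.b2 i j hij)
      · exact (cr_pos c b _ _ _ hc).2 (h1.p3 i j k hij hjk)
  ext u
  constructor
  · intro hu
    have hz : (fun i => c * ((u i - b) / c) + b) = u := by
      funext i
      rw [mul_div_cancel₀ _ hc, sub_add_cancel]
    refine ⟨fun i => (u i - b) / c, (key _).1 ?_, hz⟩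
    rw [hz]
    exact hu
  · rintro ⟨z, hz, rfl⟩
    exact (key z).2 hz

theorem TS_image (ι : Type) [LinearOrder ι] (w : ℂ) (hw : w ≠ 0) :
    {u : ι → ℂ | Pfr w u ∧ ∀ i, ‖u i‖ < ‖w‖} =
      (fun z : ι → ℂ => fun i => w * z i + 0) '' TS ι := by
  have key : ∀ z : ι → ℂ, (Pfr w (fun i => w * z i + 0) ∧ ∀ i, ‖w * z i + 0‖ < ‖w‖) ↔
      z ∈ TS ι := by
    intro z
    have hn : (0 : ℝ) < ‖w‖ := norm_pos_iff.2 hw
    have hnn : ∀ i, ‖w * z i + 0‖ < ‖w‖ ↔ ‖z i‖ < 1 := by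
      intro i
      rw [add_zero, norm_mul]
      exact mul_lt_iff_lt_one_right hn
    have hw1 : w = w * 1 + 0 := by ring
    constructor
    · rintro ⟨h1, h2⟩
      refine ⟨⟨fun i j hij => ?_, fun i j k hij hjk => ?_⟩, fun i => (hnn i).1 (h2 i)⟩
      · have h3 := h1.a2 i j hij
        nth_rewrite 1 [hw1] at h3
        exact (cr_pos w 0 _ _ _ hw).1 h3
      · exact (cr_pos w 0 _ _ _ hw).1 (h1.p3 i j k hij hjk)
    · rintro ⟨h1, h2⟩
      refine ⟨⟨fun i j hij => ?_, fun i j k hij hjk => ?_⟩, fun i => (hnn i).2 (h2 i)⟩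
      · have h3 := (cr_pos w 0 _ _ _ hw).2 (h1.a2 i j hij)
        rw [← hw1] at h3
        exact h3
      · exact (cr_pos w 0 _ _ _ hw).2 (h1.p3 i j k hij hjk)
  ext u
  constructor
  · intro hu
    have hz : (fun i => w * (u i / w) + 0) = u := by
      funext i
      rw [mul_div_cancel₀ _ hw, add_zero]
    refine ⟨fun i => u i / w, (key _).1 ?_, hz⟩
    have hz' : ∀ i, w * (u i / w) + 0 = u i := fun i => congrFun hz i
    simp only [hz']
    exact hu
  · rintro ⟨z, hz, rfl⟩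
    exact (key z).2 hz

theorem sim (hL : S_LIN) : S_SIM := by
  refine ⟨?_, ?_⟩
  · intro ι _ _ a b φ hab
    have hc : a - b ≠ 0 := sub_ne_zero.2 hab
    have h1 := ES_image ι (a - b) b φ hc
    have e1 : (a - b) * 1 + b = a := by ring
    have e2 : (a - b) * 0 + b = b := by ring
    rw [e1, e2] at h1
    rw [h1]
    exact hL ι (a - b) b hc _
  · intro ι _ _ w hw
    rw [TS_image ι w hw]
    exact hL ι w 0 hw _

end Pool.Agent.Helper31.DISC
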